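import Mathlib
import Pool.Agent.Y296.CH.K

/-!
# Compositions with Chebyshev polynomials

For every nonconstant complex polynomial `P` and the Chebyshev polynomials `T_n`, `n → ∞`, it is
decided which of the polynomials `P (T_n z) + t` are hyperbolic, up to small sets of `t` for large
`n`, and up to sparse sets of `n` for fixed `t`.
-/

set_option autoImplicit false

open Set Filter Topology MeasureTheory Polynomial

namespace Pool.Agent.Y272.Moved.ChebyshevCompositions

/-- The polynomial as a self-map of the plane. -/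
def map (T : ℂ[X]) : ℂ → ℂ := fun w : ℂ => T.eval w

/-- The orbit of `z` escapes to infinity. -/
def Escapes (T : ℂ[X]) (z : ℂ) : Prop :=
  Tendsto (fun k : ℕ => ‖(map T)^[k] z‖) atTop atTop

/-- The orbit of `z` is attracted by a sink (attracting periodic point) of `T`. -/
def Attracted (T : ℂ[X]) (z : ℂ) : Prop :=
  ∃ n : ℕ, 0 < n ∧ ∃ x : ℂ, (map T)^[n] x = x ∧ ‖deriv ((map T)^[n]) x‖ < 1 ∧
    Tendsto (fun k : ℕ => (map T)^[n * k] z) atTop (𝓝 x)

/-- `T` is hyperbolic: every critical point escapes or is attracted by a sink. -/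
def Hyperbolic (T : ℂ[X]) : Prop :=
  ∀ c : ℂ, (derivative T).eval c = 0 → Escapes T c ∨ Attracted T c

/-- `T` is in the shift locus: every critical point escapes. -/
def ShiftLocus (T : ℂ[X]) : Prop :=
  ∀ c : ℂ, (derivative T).eval c = 0 → Escapes T c

/-- The polynomial `P (T_n z) + t`, where `T_n` is the Chebyshev polynomial of degree `n` with
`T_n (cos θ) = cos (n θ)`. -/
noncomputable def family (P : ℂ[X]) (n : ℕ) (t : ℂ) : ℂ[X] :=
  P.comp (Chebyshev.T ℂ (n : ℤ)) + C t

/-- `v` is a marked value of `P`: the value of `P` at `1`, at `-1` or at a critical point of `P`.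
For `n ≥ 3` these are the critical values of `P (T_n z)`. -/
def MarkedValue (P : ℂ[X]) (v : ℂ) : Prop :=
  ∃ x : ℂ, (x = 1 ∨ x = -1 ∨ (derivative P).eval x = 0) ∧ v = P.eval x

/-- The number `x` is `cos (π r)` for some rational `r`. -/
def RationalCosine (x : ℂ) : Prop := ∃ r : ℚ, x = ((Real.cos (Real.pi * r) : ℝ) : ℂ)

/-- The degree `n` is resonant for `P`: the orbit of some marked value under the polynomial
`P (T_n z)` consists of numbers `cos (π r)`, `r` rational, and contains no critical point of this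
polynomial. -/
def Resonant (P : ℂ[X]) (n : ℕ) : Prop :=
  ∃ v : ℂ, MarkedValue P v ∧ ∀ k : ℕ, RationalCosine ((map (family P n 0))^[k] v) ∧
    (derivative (family P n 0)).eval ((map (family P n 0))^[k] v) ≠ 0

lemma map_family (P : ℂ[X]) (n : ℕ) (t : ℂ) :
    map (family P n t) = Pool.Agent.Y296.CH.pm P t n := by
  funext w
  exact Pool.Agent.Y296.CH.pp_eval P t n w

lemma map_zero (P : ℂ[X]) (n : ℕ) : map (family P n 0) = Pool.Agent.Y296.CH.Fm P n := by
  rw [map_family, Pool.Agent.Y296.CH.Fm_eq]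

lemma deriv_zero (P : ℂ[X]) (n : ℕ) (w : ℂ) :
    (derivative (family P n 0)).eval w = Pool.Agent.Y296.CH.dF P n w := by
  unfold family Pool.Agent.Y296.CH.dF
  rw [derivative_add, derivative_C, add_zero]

lemma shift_iff (P : ℂ[X]) (n : ℕ) (t : ℂ) :
    ShiftLocus (family P n t) ↔ Pool.Agent.Y296.CH.AllEsc P t n := by
  unfold ShiftLocus Escapes Pool.Agent.Y296.CH.AllEsc Pool.Agent.Y296.CH.Esc
  rw [map_family]
  rfl

lemma hyp_iff (P : ℂ[X]) (n : ℕ) :
    Hyperbolic (family P n 0) ↔ Pool.Agent.Y296.CH.PHyp P n := by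
  unfold Hyperbolic Escapes Attracted Pool.Agent.Y296.CH.PHyp Pool.Agent.Y296.CH.Esc
    Pool.Agent.Y296.CH.Att
  rw [map_zero]
  simp only [deriv_zero]

lemma res_iff (P : ℂ[X]) (n : ℕ) : Resonant P n ↔ Pool.Agent.Y296.CH.PRes P n := by
  unfold Resonant Pool.Agent.Y296.CH.PRes
  rw [map_zero]
  simp only [deriv_zero]
  rfl

/-- `P (T_n z) + t` as the member `t = 0` of the family of `P + t` -/
lemma family_shift (P : ℂ[X]) (n : ℕ) (t : ℂ) : family (P + C t) n 0 = family P n t := by
  unfold family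
  rw [add_comp, C_comp, C_0, add_zero]

/-- Let `P` be a complex polynomial of degree `d ≥ 1`. The polynomials `P (T_n z) + t` have degree
`d n`, and:

(1) for all large `n` the set of all `t` for which `P (T_n z) + t` is not in the shift locus has area
at most `110 d log n / n`, and some `t` with `|t| ≤ 60 d log n / n` gives a polynomial in the shift
locus;

(2) for every `t` outside the (at most `d + 2`) segments `[-1, 1] - v`, `v` a marked value of `P`, the
polynomial `P (T_n z) + t` is in the shift locus for all large `n`;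

(3) if `P` does not have real coefficients, there are `M ≥ 1` and `K` such that resonance of `n ≥ 1`
depends only on `n` modulo `M`, all but finitely many resonant `n` give polynomials `P (T_n z)` that
are not hyperbolic, and for every `L` each window of length `L` far enough out contains at most `K`
degrees `n` that do not obey the law that `P (T_n z)` is hyperbolic if and only if `n` is not
resonant; the set of the `n` for which `P (T_n z)` is hyperbolic has a density, which is the
proportion of the classes modulo `M` that are not resonant;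

(4) for all `t` outside a countable set such that `P + t` does not have real coefficients, the set of
the `n` for which `P (T_n z) + t` is not hyperbolic has density zero. -/
theorem result (P : ℂ[X]) (hd : 1 ≤ P.natDegree) :
    (∀ (n : ℕ) (t : ℂ), (family P n t).natDegree = P.natDegree * n) ∧
    (∃ n₀ : ℕ, ∀ n : ℕ, n₀ ≤ n →
      volume {t : ℂ | ¬ ShiftLocus (family P n t)} ≤
        ENNReal.ofReal (110 * P.natDegree * (Real.log n / n)) ∧
      ∃ t : ℂ, ‖t‖ ≤ 60 * P.natDegree * (Real.log n / n) ∧ ShiftLocus (family P n t)) ∧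
    ({v : ℂ | MarkedValue P v}.encard ≤ P.natDegree + 2 ∧
      ∀ t : ℂ, (∀ v : ℂ, MarkedValue P v → ¬ ∃ s : ℝ, |s| ≤ 1 ∧ t = s - v) →
        ∃ n₀ : ℕ, ∀ n : ℕ, n₀ ≤ n → ShiftLocus (family P n t)) ∧
    ((∃ i : ℕ, (P.coeff i).im ≠ 0) → ∃ M K n₀ : ℕ, 0 < M ∧
      (∀ n m : ℕ, 1 ≤ n → 1 ≤ m → n ≡ m [MOD M] → (Resonant P n ↔ Resonant P m)) ∧
      (∀ n : ℕ, n₀ ≤ n → Resonant P n → ¬ Hyperbolic (family P n 0)) ∧
      (∀ L : ℕ, ∃ N₀ : ℕ, ∀ N : ℕ, N₀ ≤ N →
        ({n : ℕ | ¬ (Hyperbolic (family P n 0) ↔ ¬ Resonant P n)} ∩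
          Set.Ico N (N + L)).ncard ≤ K) ∧
      Tendsto (fun N : ℕ => (({n : ℕ | Hyperbolic (family P n 0)} ∩ Set.Iio N).ncard : ℝ) / N)
        atTop (𝓝 (({a : ℕ | 1 ≤ a ∧ a ≤ M ∧ ¬ Resonant P a}.ncard : ℝ) / M))) ∧
    ∃ Z : Set ℂ, Z.Countable ∧ ∀ t : ℂ, t ∉ Z → (∃ i : ℕ, ((P + C t).coeff i).im ≠ 0) →
      Tendsto (fun N : ℕ => (({n : ℕ | ¬ Hyperbolic (family P n t)} ∩ Set.Iio N).ncard : ℝ) / N)
        atTop (𝓝 0) := by
  have hconj : ∀ G : ℂ[X], (∃ i : ℕ, (G.coeff i).im ≠ 0) → G.map (starRingEnd ℂ) ≠ G := by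
    rintro G ⟨i, hi⟩ h
    apply hi
    have h1 := congrArg (fun p => p.coeff i) h
    simp only [coeff_map] at h1
    exact Complex.conj_eq_iff_im.1 h1
  refine ⟨fun n t => Pool.Agent.Y296.CH.pp_natDegree P t n, ?_, ⟨?_, fun t ht => ?_⟩, fun hP => ?_, ?_⟩
  · simp only [shift_iff]
    exact Pool.Agent.Y296.CH.pmain hd
  · have h1 : {v : ℂ | MarkedValue P v} ⊆ (Pool.Agent.Y296.CH.pmks P : Set ℂ) :=
      fun v hv => (Pool.Agent.Y296.CH.pmark_iff hd).1 hv
    refine (Set.encard_le_encard h1).trans ?_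
    rw [Set.encard_coe_eq_coe_finsetCard]
    exact_mod_cast Pool.Agent.Y296.CH.card_pmks (P := P)
  · simp only [shift_iff]
    refine Pool.Agent.Y296.CH.peventually hd (t := t) ?_
    rintro v hv ⟨s, hs, h⟩
    exact ht v hv ⟨s, hs, by rw [← h]; ring⟩
  · simp only [res_iff, hyp_iff]
    exact Pool.Agent.Y296.CH.zero_one hd (hconj P hP)
  · refine ⟨⋃ r : ℚ, (fun v => ((Real.cos (Real.pi * r) : ℝ) : ℂ) - v) ''
      (Pool.Agent.Y296.CH.pmks P : Set ℂ), ?_, fun t ht hPt => ?_⟩
    · exact Set.countable_iUnion fun r =>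
        ((Pool.Agent.Y296.CH.pmks P).finite_toSet.countable.image _)
    · have hd' : 1 ≤ (P + C t).natDegree := by rwa [natDegree_add_C]
      obtain ⟨M, K, n₀, -, -, -, hwin, -⟩ := Pool.Agent.Y296.CH.zero_one hd' (hconj _ hPt)
      have hno : ∀ n, ¬ Pool.Agent.Y296.CH.PRes (P + C t) n := by
        rintro n ⟨v, ⟨x, hx, rfl⟩, hk⟩
        obtain ⟨r, hr⟩ := (hk 0).1
        apply ht
        rw [Set.mem_iUnion]
        refine ⟨r, P.eval x, ?_, ?_⟩
        · refine (Pool.Agent.Y296.CH.pmark_iff hd).1 ⟨x, ?_, rfl⟩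
          rwa [derivative_add, derivative_C, add_zero] at hx
        · show ((Real.cos (Real.pi * r) : ℝ) : ℂ) - P.eval x = t
          rw [← hr]
          simp
      have h1 := Pool.Agent.TH864.ZO.density_of_window hwin
      have h2 : {n : ℕ | ¬ (Pool.Agent.Y296.CH.PHyp (P + C t) n ↔
          ¬ Pool.Agent.Y296.CH.PRes (P + C t) n)} = {n : ℕ | ¬ Hyperbolic (family P n t)} := by
        ext n
        show ¬ (Pool.Agent.Y296.CH.PHyp (P + C t) n ↔ ¬ Pool.Agent.Y296.CH.PRes (P + C t) n) ↔
          ¬ Hyperbolic (family P n t)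
        rw [← family_shift, hyp_iff]
        simp [hno n]
      rw [h2] at h1
      exact h1

end Pool.Agent.Y272.Moved.ChebyshevCompositions
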