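import Mathlib
import Pool.Prelude.Def_F_c31e40fa
import Pool.Agent.W677.MB11

set_option autoImplicit false

open Filter Topology Set N62a1eb23

namespace Pool.Agent.Y272.Moved.EquipotentialsNearThreeQuarters

open Pool.Agent.H713R2

/-- The exterior conformal map `ψ` of the Mandelbrot set near the parabolic parameter `-3/4`.
There are absolute constants `A, B > 0` such that, for `0 < ρ ≤ 1/4`, the largest value of
`‖w‖ - 1` over the points `w` with `‖ψ w + 3/4‖ ≤ ρ` lies between `exp (-B/ρ)` and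
`exp (1 - A/ρ)`. Hence, if `ψ` extends continuously to the unit circle (as it does when the
Mandelbrot set is locally connected), then some point `ζ` of the circle is mapped to `-3/4`, and at
every such `ζ` the extension has modulus of continuity at least `A / (1 + log (1/t))`. -/
theorem result :
    (∃ ψ : ℂ → ℂ, IsExteriorMap mandelbrotSet ψ) ∧
    ∃ A B : ℝ, 0 < A ∧ 0 < B ∧ ∀ ψ : ℂ → ℂ, IsExteriorMap mandelbrotSet ψ →
      (∀ ρ : ℝ, 0 < ρ → ρ ≤ 1 / 4 →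
        (∀ w : ℂ, 1 < ‖w‖ → ‖ψ w + 3 / 4‖ ≤ ρ → ‖w‖ - 1 ≤ Real.exp (1 - A / ρ)) ∧
        ∃ w : ℂ, 1 < ‖w‖ ∧ ‖ψ w + 3 / 4‖ ≤ ρ ∧ Real.exp (-B / ρ) ≤ ‖w‖ - 1) ∧
      ∀ F : ℂ → ℂ, ContinuousOn F {w : ℂ | 1 ≤ ‖w‖} → (∀ w : ℂ, 1 < ‖w‖ → F w = ψ w) →
        (∃ ζ : ℂ, ‖ζ‖ = 1 ∧ F ζ = -3 / 4) ∧
        ∀ ζ : ℂ, ‖ζ‖ = 1 → F ζ = -3 / 4 → ∀ w : ℂ, 1 < ‖w‖ → ‖w‖ ≤ 2 →
          A ≤ ‖F w - F ζ‖ * (1 + Real.log (1 / (‖w‖ - 1))) := by
  obtain ⟨β, hβ⟩ := exists_beta (d := 2) le_rfl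
  refine ⟨⟨_, exteriorMap_of_beta hβ⟩, ?_⟩
  obtain ⟨a, ha, hdist⟩ := Pool.Agent.W677.MB.dist34
  obtain ⟨C, hC, hnear⟩ := Pool.Agent.W677.MB.near34'
  obtain ⟨c, hc, hext⟩ := Pool.Agent.W677.MB.ext34
  refine ⟨a, C, ha, hC, ?_⟩
  intro ψ hψ
  refine ⟨?_, ?_⟩
  · intro ρ hρ hρ4
    refine ⟨?_, ?_⟩
    · intro w hw hwρ
      have hw2 : ‖w‖ ≤ 2 := Pool.Agent.W677.MB.norm_le_two_of_near hψ hw (hwρ.trans hρ4)
      have h1 := hdist ψ hψ w hw hw2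
      have h0 : 0 < ‖w‖ - 1 := by linarith
      have hlog : 0 ≤ Real.log (1 / (‖w‖ - 1)) := by
        apply Real.log_nonneg
        rw [le_div_iff₀ h0]
        linarith
      have h2 : a ≤ ρ * (1 + Real.log (1 / (‖w‖ - 1))) :=
        h1.trans (mul_le_mul_of_nonneg_right hwρ (by linarith))
      have h3 : a / ρ ≤ 1 + Real.log (1 / (‖w‖ - 1)) := by
        rw [div_le_iff₀ hρ]
        linarith
      have h4 : Real.log (1 / (‖w‖ - 1)) = - Real.log (‖w‖ - 1) := by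
        rw [one_div, Real.log_inv]
      rw [h4] at h3
      rw [← Real.exp_log h0]
      apply Real.exp_le_exp.2
      linarith
    · obtain ⟨z, hz1, hz2, hz3⟩ := hnear ψ hψ ρ hρ (by linarith)
      refine ⟨z, hz1, hz2, ?_⟩
      have h0 : 0 < ‖z‖ - 1 := by linarith
      have h4 : Real.log (1 / (‖z‖ - 1)) = - Real.log (‖z‖ - 1) := by
        rw [one_div, Real.log_inv]
      rw [h4] at hz3
      rw [← Real.exp_log h0, neg_div]
      apply Real.exp_le_exp.2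
      linarith
  · intro F hF hE
    obtain ⟨ζ₀, h1, h2, -⟩ := hext ψ F hψ hF (fun w hw => hE w hw)
    refine ⟨⟨ζ₀, h1, h2⟩, ?_⟩
    intro ζ hζ hFζ w hw hw2
    have h3 := hdist ψ hψ w hw hw2
    rw [hE w hw, hFζ]
    have e : ψ w - -3 / 4 = ψ w + 3 / 4 := by ring
    rw [e]
    exact h3

end Pool.Agent.Y272.Moved.EquipotentialsNearThreeQuarters
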