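import Mathlib
import Pool.Prelude.Def_F_c31e40fa
import Pool.Agent.Y272.Main

set_option autoImplicit false

open N62a1eb23

namespace Pool.Agent.Y272.Moved.IteratedLogSeparation

/-- Pairs of very close points of the Multibrot set `M_n` which are joined only by large connected
subsets of `M_n`: for every `k ≥ 1` there are such pairs at distance
`O(1 / (n log n log log n ⋯ log^[k] n))`, and the connected subsets have diameter at least
`(log^[k + 1] n - O(1)) / n`. -/
theorem result (k : ℕ) (hk : 1 ≤ k) :
    ∃ C : ℝ, ∃ N : ℕ, ∀ n ≥ N, ∃ x ∈ multibrotSet n, ∃ y ∈ multibrotSet n,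
      dist x y ≤ C / (n * ∏ j ∈ Finset.range k, Real.log^[j + 1] n) ∧
      ∀ S ⊆ multibrotSet n, IsPreconnected S → x ∈ S → y ∈ S →
        (Real.log^[k + 1] n - C) / n ≤ Metric.diam S :=
  Pool.Agent.Y272.lower k

end Pool.Agent.Y272.Moved.IteratedLogSeparation
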