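import Mathlib
import Pool.Agent.Y334.AI.Main
import Pool.Agent.Y334.AI.Ex

/-!
# Hyperbolic polynomials are asymptotically dense at infinity of moduli space

Let `d ≥ 3`. Every polynomial of degree `d` is affinely conjugate to a monic centred one, and a
sequence of monic centred polynomials leaves every compact part of moduli space if and only if the
critical points or the constant terms are unbounded. Let `T` be monic and centred of degree `d` with
a critical point `c`.

(1) For every `θ < 1 / (d - 2)` the filled Julia set of `T`, and also the set of all translations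
`s` for which `T + s` is not in the shift locus (some critical point does not escape), are covered
by `N` discs of radius `K (1 + |c|) ^ (-θ)`, where `N` and `K` depend only on `d` and `θ`. So some
`T + s` with `|s| ≤ K (1 + |c|) ^ (-θ)` has only escaping critical points and is hyperbolic.

(2) The exponent `1 / (d - 2)` is optimal: for every `R ≥ 1` both sets contain a disc of radius
`κ R ^ (-1 / (d - 2))` for suitable `T` and `c` with `|c| = R`.

Method: for a centred polynomial with a root of modulus `R` and every `w`, each point of the plane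
has distance at least `R / 4` from one of the roots of `T - w`. Hence a point which `T` maps into a
disc of radius `t` lies in one of `d` discs of radius `(8 t / R) ^ (1 / (d - 1))`. Starting with the
disc of radius `16 R`, this is iterated for the union of the filled Julia sets of the `T + s`, with
`s` in a disc whose radius is the one reached so far; the exponents tend to the fixed point
`e = (1 + e) / (d - 1)`, which is `1 / (d - 2)`.
-/

set_option autoImplicit false

open Polynomial Filter Topology Metric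

namespace Pool.Agent.Y272.Moved.NearInfinity

/-- The polynomial as a self-map of the plane. -/
def map (T : ℂ[X]) : ℂ → ℂ := fun w : ℂ => T.eval w

/-- The orbit of `z` escapes to infinity. -/
def Escapes (T : ℂ[X]) (z : ℂ) : Prop :=
  Tendsto (fun k : ℕ => ‖(map T)^[k] z‖) atTop atTop

/-- The orbit of `z` is attracted by a sink of `T` of period `n`. -/
def Attracted (T : ℂ[X]) (z : ℂ) : Prop :=
  ∃ (n : ℕ) (x : ℂ), 0 < n ∧ (map T)^[n] x = x ∧ ‖deriv ((map T)^[n]) x‖ < 1 ∧
    Tendsto (fun k : ℕ => (map T)^[n * k] z) atTop (𝓝 x)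

/-- `T` is hyperbolic: every critical point escapes or is attracted by a sink. -/
def Hyperbolic (T : ℂ[X]) : Prop :=
  ∀ c : ℂ, (derivative T).eval c = 0 → Escapes T c ∨ Attracted T c

/-- `T` is in the shift locus: every critical point escapes. -/
def ShiftLocus (T : ℂ[X]) : Prop := ∀ c : ℂ, (derivative T).eval c = 0 → Escapes T c

/-- `T` is monic and centred of degree `d`, and `c` is a critical point of `T`. -/
def Normalised (d : ℕ) (T : ℂ[X]) (c : ℂ) : Prop :=
  T.Monic ∧ T.natDegree = d ∧ T.coeff (d - 1) = 0 ∧ (derivative T).eval c = 0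

/-- `S` is covered by at most `N` closed discs of radius `r`. -/
def CoveredBy (S : Set ℂ) (N : ℕ) (r : ℝ) : Prop :=
  ∃ F : Finset ℂ, F.card ≤ N ∧ S ⊆ ⋃ a ∈ F, closedBall a r

theorem coveredBy_of {S : Set ℂ} {N N' : ℕ} {r r' : ℝ} (h : Pool.Agent.Y334.AI.Cov S N r)
    (hN : N ≤ N') (hr : r ≤ r') : CoveredBy S N' r' := by
  obtain ⟨F, h1, h2⟩ := h
  refine ⟨F, h1.trans hN, fun z hz => ?_⟩
  obtain ⟨a, ha, h3⟩ := h2 z hz
  rw [Set.mem_iUnion₂]
  exact ⟨a, ha, by rw [mem_closedBall, dist_eq_norm]; exact h3.trans hr⟩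

theorem shift_iff (T : ℂ[X]) (s : ℂ) :
    ¬ ShiftLocus (T + C s) ↔ s ∈ Pool.Agent.Y334.AI.Bad T := by
  unfold ShiftLocus Pool.Agent.Y334.AI.Bad
  rw [Set.mem_setOf_eq]
  push Not
  simp only [derivative_add, derivative_C, add_zero]
  rfl

/-- For `d ≥ 3` and `θ < 1 / (d - 2)` the filled Julia set of a monic centred polynomial `T` of
degree `d` with critical point `c`, and the set of the `s` for which `T + s` is not in the shift
locus, are covered by `N` discs of radius `K (1 + |c|) ^ (-θ)`; some `T + s` with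
`|s| ≤ K (1 + |c|) ^ (-θ)` is hyperbolic with only escaping critical points; and the exponent
`1 / (d - 2)` is optimal. -/
theorem result (d : ℕ) (hd : 3 ≤ d) :
    (∀ θ : ℝ, 0 ≤ θ → θ < 1 / ((d : ℝ) - 2) → ∃ (N : ℕ) (K : ℝ), 0 < K ∧
      ∀ (T : ℂ[X]) (c : ℂ), Normalised d T c →
        CoveredBy {z | ¬ Escapes T z} N (K * (1 + ‖c‖) ^ (-θ)) ∧
        CoveredBy {s | ¬ ShiftLocus (T + C s)} N (K * (1 + ‖c‖) ^ (-θ)) ∧
        ∃ s : ℂ, ‖s‖ ≤ K * (1 + ‖c‖) ^ (-θ) ∧ ShiftLocus (T + C s) ∧ Hyperbolic (T + C s)) ∧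
    (∃ κ : ℝ, 0 < κ ∧ ∀ R : ℝ, 1 ≤ R → ∃ (T : ℂ[X]) (c : ℂ), Normalised d T c ∧ ‖c‖ = R ∧
      closedBall c (κ * R ^ (-(1 / ((d : ℝ) - 2)))) ⊆ {z | ¬ Escapes T z} ∧
      closedBall 0 (κ * R ^ (-(1 / ((d : ℝ) - 2)))) ⊆ {s | ¬ ShiftLocus (T + C s)}) := by
  constructor
  · intro θ hθ0 hθ
    obtain ⟨N₁, K₁, hK₁, h1⟩ := Pool.Agent.Y334.AI.dyn_main hd hθ0 hθ
    obtain ⟨N₂, K₂, hK₂, h2⟩ := Pool.Agent.Y334.AI.bad_main hd hθ0 hθ
    refine ⟨max N₁ N₂, max K₁ ((3 * N₂ + 1) * K₂), by positivity, ?_⟩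
    rintro T c ⟨hm, hdeg, hcent, hc⟩
    have hT : Pool.Agent.Y334.AI.MC d T := ⟨hm, hdeg, hcent⟩
    have hx : 0 < (1 + ‖c‖) ^ (-θ) := Real.rpow_pos_of_pos (by positivity) _
    have hN0 : (0 : ℝ) ≤ N₂ := Nat.cast_nonneg _
    have hle : K₂ * (1 + ‖c‖) ^ (-θ) ≤ max K₁ ((3 * N₂ + 1) * K₂) * (1 + ‖c‖) ^ (-θ) := by
      refine mul_le_mul_of_nonneg_right (le_trans ?_ (le_max_right _ _)) hx.le
      nlinarith
    refine ⟨coveredBy_of (h1 T hT c hc) (le_max_left _ _)
      (mul_le_mul_of_nonneg_right (le_max_left _ _) hx.le), ?_, ?_⟩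
    · have h3 : {s | ¬ ShiftLocus (T + C s)} = Pool.Agent.Y334.AI.Bad T := by
        ext s
        exact shift_iff T s
      rw [h3]
      exact coveredBy_of (h2 T hT c hc) (le_max_right _ _) hle
    · obtain ⟨s, hs1, hs2⟩ := Pool.Agent.Y334.AI.exists_small
        (mul_pos hK₂ hx) (h2 T hT c hc)
      rw [← shift_iff, not_not] at hs2
      refine ⟨s, hs1.trans ?_, hs2, fun c' hc' => Or.inl (hs2 c' hc')⟩
      calc 3 * N₂ * (K₂ * (1 + ‖c‖) ^ (-θ)) ≤ (3 * N₂ + 1) * K₂ * (1 + ‖c‖) ^ (-θ) := by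
            nlinarith [mul_pos hK₂ hx]
        _ ≤ _ := mul_le_mul_of_nonneg_right (le_max_right _ _) hx.le
  · obtain ⟨κ, hκ, h⟩ := Pool.Agent.Y334.AI.ex_main hd
    refine ⟨κ, hκ, fun R hR => ?_⟩
    obtain ⟨T, c, hT, hc, hcR, h1, h2⟩ := h R hR
    refine ⟨T, c, ⟨hT.monic, hT.deg, hT.cent, hc⟩, hcR, fun z hz => ?_, fun s hs => ?_⟩
    · rw [mem_closedBall, dist_eq_norm] at hz
      exact h1 z hz
    · rw [mem_closedBall_zero_iff] at hs
      exact (shift_iff T s).2 (h2 s hs)

end Pool.Agent.Y272.Moved.NearInfinity
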