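import Mathlib
import Pool.Prelude.Def_F_c31e40fa
import Pool.Agent.Y272.Main

set_option autoImplicit false

open N62a1eb23

namespace Pool.Agent.Y272.Moved.SharpCoarseModulus

/-- The modulus of local connectivity of the Multibrot set `M_n` at the scale `1 / n` is
`log n / n` up to an error of order `1 / n`: the bound from above (for all pairs of points) and
the bound from below. -/
theorem result :
    (∃ C : ℝ, ∀ n : ℕ, 2 ≤ n → ∀ x ∈ multibrotSet n, ∀ y ∈ multibrotSet n,
      ∃ S ⊆ multibrotSet n, IsCompact S ∧ IsConnected S ∧ x ∈ S ∧ y ∈ S ∧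
        Metric.diam S ≤ dist x y + (1 + dist x y) * ((Real.log n + C) / n)) ∧
    (∃ C : ℝ, ∃ N : ℕ, ∀ n ≥ N, ∃ x ∈ multibrotSet n, ∃ y ∈ multibrotSet n,
      dist x y ≤ C / n ∧ ∀ S ⊆ multibrotSet n, IsPreconnected S → x ∈ S → y ∈ S →
        (Real.log n - C) / n ≤ Metric.diam S) := by
  refine ⟨Pool.Agent.Y272.upper, ?_⟩
  simpa using Pool.Agent.Y272.lower 0

end Pool.Agent.Y272.Moved.SharpCoarseModulus
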